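import Mathlib
import Pool.Agent.J6H44.PS.Every

set_option autoImplicit false

/-!
# Every vector of multiplicities: smooth general members outside a window

Let `w` be ANY vector of multiplicities at `n` general points of the complex projective plane,
`w i ≤ μ`, let `h = (d + 2).choose 2 - ∑ (w i + 1).choose 2 > 0` be the expected number of
independent curves of degree `d`, and assume, the sums being over the points with `w i ≥ 2`, that
`∑ w i + 4 ((d + 2).choose 2 - ∑ (w i + 1).choose 2) ≥ 51000 (μ + 2) ^ 2`.

If `w i < h` for all `i`, or if only `h + ∑_{w i < h} w i ≥ d + 1`, then the linear system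
`|d H - ∑ w i E i|` is nonspecial and its general member is a smooth curve on the blow-up.

In particular, if `∑_{w i ≥ 2} w i ≥ 51000 (max w i + 2) ^ 2` this holds for ALL degrees in which
the virtual dimension `h - 1` is at least `max w i`, and for an arbitrary vector it holds in all
degrees in which the virtual dimension is at least `12750 (max w i + 2) ^ 2`.
-/

namespace Pool.Agent.Results.MP_0421d9_ag.EveryVectorEveryDegree

open Pool.Agent.H248R5

theorem result (n d μ h : ℕ) (w : Fin n → ℕ) (hμ : ∀ i, w i ≤ μ)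
    (h1 : 51000 * (μ + 2) ^ 2 +
        4 * ∑ i ∈ Finset.univ.filter (fun i => 2 ≤ w i), (w i + 1).choose 2 ≤
      (∑ i ∈ Finset.univ.filter (fun i => 2 ≤ w i), w i) + 4 * (d + 2).choose 2)
    (hh : (∑ i, (w i + 1).choose 2) + h = (d + 2).choose 2) (h0 : 0 < h)
    (h2 : (∀ i, w i < h) ∨ d + 1 ≤ h + ∑ i ∈ Finset.univ.filter (fun i => w i < h), w i) :
    ∃ F : MvPolynomial (Fin n × Fin 2) ℂ, F ≠ 0 ∧
      ∀ P : Fin n → Fin 2 → ℂ,
        MvPolynomial.eval (fun ij : Fin n × Fin 2 => P ij.1 ij.2) F ≠ 0 →
          Module.finrank ℂ ↥(forms w P d) = h ∧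
          GeneralMember (forms w P d) (SmoothMember w P) := by
  obtain ⟨F, hF, hF'⟩ := J6H44.PS.every_smooth (K := ℂ) hμ h1 hh h0 h2
  refine ⟨F.map (algebraMap ℚ ℂ), H932R3.map_ne_zero_of hF, fun P hP => ?_⟩
  rw [MvPolynomial.eval_map] at hP
  exact hF' P hP

end Pool.Agent.Results.MP_0421d9_ag.EveryVectorEveryDegree
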