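import Mathlib
import Pool.Agent.W609.UniX
import Pool.Agent.H248R5.Gen

set_option autoImplicit false

/-!
# All multiplicity vectors, up to an exponentially small relative error: smooth general members

For every `n ≥ 2 ^ 1000`, ALL multiplicities `w 1, …, w n` and all `d`: the linear system
`|d H - ∑ w i E i|` for `n` general points of the complex projective plane is nonspecial and its
general member is a smooth curve on the blow-up if
`d ≥ (1 + n exp (-n ^ (1 / 10))) √n w i + √n + 1` for all `i`.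
-/

namespace Pool.Agent.Results.MP_0421d9_ag.EveryVectorExponentialSmooth

open Pool.Agent.H248R5

theorem numeric {n d : ℕ} (hn : 0 < n) {w : Fin n → ℕ} {ε : ℝ} (hε : 0 ≤ ε)
    (h : ∀ i, (1 + ε) * (Real.sqrt n * w i) + Real.sqrt n + 1 ≤ d) :
    ∑ i, (w i + 1).choose 2 ≤ (d + 1).choose 2 := by
  have hs : Real.sqrt n * Real.sqrt n = n := Real.mul_self_sqrt (Nat.cast_nonneg n)
  have hs0 : 0 ≤ Real.sqrt n := Real.sqrt_nonneg _
  have h1 : ∀ i, n * (w i * (w i + 1)) ≤ d * (d + 1) := by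
    intro i
    have hx : (0 : ℝ) ≤ w i := Nat.cast_nonneg _
    have h2 : Real.sqrt n * w i + Real.sqrt n + 1 ≤ d := by
      have h3 : 0 ≤ ε * (Real.sqrt n * w i) := by positivity
      have h4 := h i
      nlinarith
    have h5 : (0 : ℝ) ≤ Real.sqrt n * w i := by positivity
    have h6 : ((n * (w i * (w i + 1)) : ℕ) : ℝ) ≤ ((d * (d + 1) : ℕ) : ℝ) := by
      push_cast
      have h7 : (n : ℝ) * (w i * (w i + 1)) =
          (Real.sqrt n * w i) * (Real.sqrt n * w i + Real.sqrt n) := by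
        linear_combination (-((w i : ℝ) * (w i + 1))) * hs
      rw [h7]
      have h8 : Real.sqrt n * w i ≤ d := by linarith
      have h9 : Real.sqrt n * w i + Real.sqrt n ≤ (d : ℝ) + 1 := by linarith
      exact mul_le_mul h8 h9 (by positivity) (by positivity)
    exact_mod_cast h6
  have h2 : n * ∑ i, w i * (w i + 1) ≤ n * (d * (d + 1)) := by
    rw [Finset.mul_sum]
    calc ∑ i, n * (w i * (w i + 1)) ≤ ∑ _i : Fin n, d * (d + 1) :=
          Finset.sum_le_sum fun i _ => h1 i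
      _ = n * (d * (d + 1)) := by
          rw [Finset.sum_const, Finset.card_univ, Fintype.card_fin, smul_eq_mul]
  have h3 := Nat.le_of_mul_le_mul_left h2 hn
  have h4 := H932R3.two_mul_sum w
  have h5 : 2 * (d + 1).choose 2 = d * (d + 1) := by
    rw [Nat.choose_two_right, Nat.add_sub_cancel]
    have h6 : 2 ∣ (d + 1) * d := by
      rw [mul_comm]
      exact (Nat.even_mul_succ_self d).two_dvd
    rw [Nat.mul_div_cancel' h6, mul_comm]
  omega

theorem result (n : ℕ) (hn : 2 ^ 1000 ≤ n) (w : Fin n → ℕ) :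
    ∃ F : MvPolynomial (Fin n × Fin 2) ℂ, F ≠ 0 ∧
      ∀ P : Fin n → Fin 2 → ℂ,
        MvPolynomial.eval (fun ij : Fin n × Fin 2 => P ij.1 ij.2) F ≠ 0 →
        ∀ d : ℕ, (∀ i, (1 + n * Real.exp (-((n : ℝ) ^ (1 / 10 : ℝ)))) * (Real.sqrt n * w i) +
            Real.sqrt n + 1 ≤ d) →
          Module.finrank ℂ ↥(forms w P d) = (d + 2).choose 2 - ∑ i, (w i + 1).choose 2 ∧
          GeneralMember (forms w P d) (SmoothMember w P) := by
  have hnR : (2 : ℝ) ^ 1000 ≤ n := by
    have h1 : ((2 ^ 1000 : ℕ) : ℝ) ≤ (n : ℝ) := Nat.cast_le.2 hn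
    rwa [Nat.cast_pow, Nat.cast_ofNat] at h1
  have h16 : 16 ≤ n := by
    refine le_trans ?_ hn
    calc 16 = 2 ^ 4 := by norm_num
      _ ≤ 2 ^ 1000 := Nat.pow_le_pow_right (by norm_num) (by norm_num)
  clear hn
  obtain ⟨F, hF, h1⟩ := W609.U.wedge_expX ℂ hnR w
  clear hnR
  refine ⟨F.map (algebraMap ℚ ℂ) * disc ℂ n, mul_ne_zero (H932R3.map_ne_zero_of hF)
    (disc_ne ℂ n), fun P hP d hd => ?_⟩
  rw [map_mul, MvPolynomial.eval_map] at hP
  have hP1 := h1 P (left_ne_zero_of_mul hP)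
  have hn0 : 0 < n := by omega
  obtain ⟨ε, hε⟩ : ∃ ε, ε = n * Real.exp (-((n : ℝ) ^ (1 / 10 : ℝ))) := ⟨_, rfl⟩
  rw [← hε] at hd hP1
  have hε0 : 0 ≤ ε := by
    rw [hε]
    positivity
  have hs4 : (4 : ℝ) ≤ Real.sqrt n := by
    rw [Real.le_sqrt (by norm_num) (Nat.cast_nonneg n)]
    have : (16 : ℝ) ≤ n := by exact_mod_cast h16
    linarith
  have hd1 : (5 : ℝ) ≤ d := by
    have h2 := hd ⟨0, hn0⟩
    have h3 : (0 : ℝ) ≤ (1 + ε) * (Real.sqrt n * w ⟨0, hn0⟩) := by positivity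
    linarith
  have hd5 : 5 ≤ d := by exact_mod_cast hd1
  refine ⟨hP1 d (by omega) (Or.inr fun i => by linarith [hd i]), ?_⟩
  refine general_smooth' (inj_of_disc (right_ne_zero_of_mul hP)) (by omega)
    (hP1 (d - 1) (by omega) (Or.inr fun i => ?_)) (numeric hn0 hε0 hd)
  have h5 : ((d - 1 : ℕ) : ℝ) = d - 1 := by
    rw [Nat.cast_sub (by omega), Nat.cast_one]
  rw [h5]
  linarith [hd i]

end Pool.Agent.Results.MP_0421d9_ag.EveryVectorExponentialSmooth
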