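import Mathlib
import Pool.Agent.J6H44.PS.Three

set_option autoImplicit false

/-!
# Smooth general members, the first three multiplicities being arbitrary

Let `v 0 ≥ v 1 ≥ v 2 ≥ v 3 ≥ ⋯` be any multiplicities with `v 3 ≥ 2` at general points of the
complex projective plane, and let `d ≥ v 0 + v 1 + v 2 + 2` be any degree for which the number of
coefficients left by the first three points, or the number of conditions at the other points, is at
least of order `(v 3 + 2) ^ 4`. Then `|d H - ∑ v i E i|` is nonspecial, and its general member is a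
smooth curve on the blow-up as soon as the virtual dimension is at least `v 3`, however large the
first three multiplicities are.

Only the points of multiplicity at most `v 3` are moved; the curve is shown to be smooth at the
first three points too, where its leading forms do not fill the space of binary forms.
-/

namespace Pool.Agent.Results.MP_0421d9_ag.FirstThreeArbitrarySmooth

open Pool.Agent.H248R5

theorem result (r : ℕ) (v : Fin (r + 4) → ℕ) (hv : Antitone v) (h0 : 2 ≤ v 3) :
    ∃ F : MvPolynomial (Fin (r + 4) × Fin 2) ℂ, F ≠ 0 ∧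
      ∀ P : Fin (r + 4) → Fin 2 → ℂ,
        MvPolynomial.eval (fun ij : Fin (r + 4) × Fin 2 => P ij.1 ij.2) F ≠ 0 →
        ∀ d : ℕ, v 0 + v 1 + v 2 + 2 ≤ d →
          (131072 * (v 3 + 2) ^ 4 + (v 0 * (v 0 + 1) + v 1 * (v 1 + 1) + v 2 * (v 2 + 1)) ≤
              (d + 1) * (d + 2) ∨
            131072 * (v 3 + 2) ^ 4 ≤
              ∑ i : Fin (r + 4), if 3 ≤ (i : ℕ) then (v i + 1).choose 2 else 0) →
          Module.finrank ℂ ↥(forms v P d) = (d + 2).choose 2 - ∑ i, (v i + 1).choose 2 ∧
          ((∑ i, (v i + 1).choose 2) + v 3 + 1 ≤ (d + 2).choose 2 →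
            GeneralMember (forms v P d) (SmoothMember v P)) := by
  obtain ⟨F, hF, hF'⟩ := J6H44.PS.three_smooth (K := ℂ) hv h0
  refine ⟨F.map (algebraMap ℚ ℂ), H932R3.map_ne_zero_of hF, fun P hP d hd h1 => ?_⟩
  rw [MvPolynomial.eval_map] at hP
  exact hF' P hP d hd h1

end Pool.Agent.Results.MP_0421d9_ag.FirstThreeArbitrarySmooth
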