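import Mathlib
import Pool.Agent.J6H44.PS.Above

set_option autoImplicit false

/-!
# Any number of large multiplicities: smooth general members from virtual dimension `m - 1` on

General points of the complex projective plane with arbitrary multiplicities `w i`, any `m ≥ 1`,
`f = 2 m ^ 2 + 3 m + 3`. Let `D ≥ f`, `D ≥ w i + f` for `w i ≥ m`, `D ≥ w i + w j + f` for `i ≠ j`
and `w i, w j ≥ m`, and, if more than three of the `w i` are at least `m`,
`2 D ≥ (∑ of the w i with w i ≥ m) + 4 m ^ 2 + 8 m + 7`. In every degree `d ≥ D` the linear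
system is nonspecial, and its general member is smooth on the blow-up if the expected number
`h = (d + 2).choose 2 - ∑ (w i + 1).choose 2` of independent curves is at least `m`, however large
the `w i ≥ m` are.

Only the points of multiplicity less than `m` are moved.
-/

namespace Pool.Agent.Results.MP_0421d9_ag.LargePointsFewSections

open Pool.Agent.H248R5

theorem result (n m D : ℕ) (hm : 0 < m) (w : Fin n → ℕ) (h1 : 2 * m ^ 2 + 3 * m + 3 ≤ D)
    (h2 : ∀ i, m ≤ w i → w i + (2 * m ^ 2 + 3 * m + 3) ≤ D)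
    (h3 : ∀ i j, i ≠ j → m ≤ w i → m ≤ w j → w i + w j + (2 * m ^ 2 + 3 * m + 3) ≤ D)
    (h4 : (Finset.univ.filter fun i => m ≤ w i).card ≤ 3 ∨
      (∑ i, if m ≤ w i then w i else 0) + (4 * m ^ 2 + 8 * m + 7) ≤ 2 * D) :
    ∃ F : MvPolynomial (Fin n × Fin 2) ℂ, F ≠ 0 ∧
      ∀ P : Fin n → Fin 2 → ℂ,
        MvPolynomial.eval (fun ij : Fin n × Fin 2 => P ij.1 ij.2) F ≠ 0 →
        ∀ d : ℕ, D ≤ d →
          Module.finrank ℂ ↥(forms w P d) = (d + 2).choose 2 - ∑ i, (w i + 1).choose 2 ∧
          ((∑ i, (w i + 1).choose 2) + m ≤ (d + 2).choose 2 →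
            GeneralMember (forms w P d) (SmoothMember w P)) := by
  have e : W611.ff m = 2 * m ^ 2 + 3 * m + 2 := by
    unfold W611.ff
    ring
  obtain ⟨F, hF, hF'⟩ := J6H44.PS.above_all (K := ℂ) m hm w D (by omega)
    (fun i hi => by
      have := h2 i hi
      omega)
    (fun i j hij hi hj => by
      have := h3 i j hij hi hj
      omega)
    (by
      rcases h4 with h4 | h4
      · exact Or.inl h4
      · right
        omega)
  refine ⟨F.map (algebraMap ℚ ℂ), H932R3.map_ne_zero_of hF, fun P hP d hd => ?_⟩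
  rw [MvPolynomial.eval_map] at hP
  exact hF' P hP d hd

end Pool.Agent.Results.MP_0421d9_ag.LargePointsFewSections
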